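import Pool.Agent.H13.EM.Vit

/-!
# Energy minimality

A family `S` of objects `f` with energies `e f c ≥ 0` on the cells `c ∈ ℤ × ℤ` and sets `b Λ f` of bad cells, closed under translations and limits; in the limit every
bad cell loses the energy `q`.  Then for large `Λ` there is an `f ∈ S` whose bad cells have small density at all scales, around most centres.
-/

set_option autoImplicit false

open Finset Filter

namespace Pool.Agent.H13.EM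

/-- a family with energies, closed under translations and limits -/
structure Eng {ι : Type} (S : Set ι) (tr : ℤ × ℤ → ι → ι) (e : ι → ℤ × ℤ → ℝ) (b : ℝ → ι → Set (ℤ × ℤ)) (E q : ℝ) : Prop where
  q_pos : 0 < q
  tr_mem : ∀ f ∈ S, ∀ a, tr a f ∈ S
  e_tr : ∀ f ∈ S, ∀ a c, e (tr a f) c = e f (c + a)
  b_tr : ∀ f ∈ S, ∀ Λ a c, c ∈ b Λ (tr a f) ↔ c + a ∈ b Λ f
  e_nonneg : ∀ f ∈ S, ∀ c, 0 ≤ e f c
  e_le : ∀ f ∈ S, ∀ c, e f c ≤ E
  mono : ∀ f ∈ S, ∀ Λ Λ', Λ ≤ Λ' → b Λ' f ⊆ b Λ f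
  lim : ∀ 𝒰 : Ultrafilter ℕ, (𝒰 : Filter ℕ) ≤ atTop → ∀ F : ℕ → ι, (∀ n, F n ∈ S) → ∃ g ∈ S,
    (∀ (n : ℕ) (J : Finset (ℤ × ℤ)), J ⊆ box n → (∀ Λ : ℝ, ∀ᶠ m in (𝒰 : Filter ℕ), ∀ c ∈ J, c ∈ b Λ (F m)) → ∀ ε : ℝ, 0 < ε →
      ∀ᶠ m in (𝒰 : Filter ℕ), ∑ c ∈ box (n + 1), e g c + q * J.card - ε ≤ ∑ c ∈ box (n + 1), e (F m) c) ∧
    ∀ (Λ : ℝ) (c : ℤ × ℤ), c ∈ b (2 * Λ) g → ∃ d ∈ box 1, ∀ᶠ m in (𝒰 : Filter ℕ), c + d ∈ b Λ (F m)

variable {ι : Type} {S : Set ι} {tr : ℤ × ℤ → ι → ι} {e : ι → ℤ × ℤ → ℝ} {b : ℝ → ι → Set (ℤ × ℤ)} {E q : ℝ}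

/-- the bad cells of a translate -/
theorem Eng.cnt_tr (h : Eng S tr e b E q) {f : ι} (hf : f ∈ S) (Λ : ℝ) (a : ℤ × ℤ) (n : ℕ) : cnt (b Λ (tr a f)) 0 n = cnt (b Λ f) a n := by
  classical
  rw [cnt_eq, cnt_eq]
  congr 1
  ext c
  simp [h.b_tr f hf]

/-- compactness: the cost of the bad cells -/
theorem Eng.cost (h : Eng S tr e b E q) (Λ₀ : ℝ) (n : ℕ) {x : ℝ} (hx : ∀ f ∈ S, x ≤ ∑ c ∈ box (n + 1), e f c) {ε : ℝ} (hε : 0 < ε) :
    ∃ Λ : ℝ, Λ₀ ≤ Λ ∧ ∀ f ∈ S, x + q * cnt (b Λ f) 0 n ≤ ∑ c ∈ box (n + 1), e f c + ε := by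
  classical
  by_contra hcon
  push Not at hcon
  have h1 : ∀ m : ℕ, ∃ f ∈ S, ∑ c ∈ box (n + 1), e f c + ε < x + q * cnt (b (Λ₀ + m) f) 0 n := fun m =>
    hcon (Λ₀ + m) (by have : (0 : ℝ) ≤ m := Nat.cast_nonneg _; linarith)
  choose F hF hlt using h1
  set J : ℕ → Finset (ℤ × ℤ) := fun m => (box n).filter fun c => c + 0 ∈ b (Λ₀ + m) (F m) with hJ
  have hcnt : ∀ m : ℕ, cnt (b (Λ₀ + m) (F m)) 0 n = (J m).card := fun m => cnt_eq _ _ _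
  set 𝒰 : Ultrafilter ℕ := hyperfilter ℕ with h𝒰
  have h𝒰' : (𝒰 : Filter ℕ) ≤ atTop := by
    rw [← Nat.cofinite_eq_atTop]
    exact hyperfilter_le_cofinite
  obtain ⟨J₀, hJ₀, hJ₀'⟩ : ∃ J₀ ∈ (box n).powerset, ∀ᶠ m in (𝒰 : Filter ℕ), J m = J₀ := by
    have h2 : (⋃ J₀ ∈ ((box n).powerset : Set (Finset (ℤ × ℤ))), {m | J m = J₀}) ∈ 𝒰 := by
      refine Filter.univ_mem' fun m => ?_
      simp only [Set.mem_iUnion, Set.mem_setOf_eq]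
      exact ⟨J m, mem_coe.2 (mem_powerset.2 (filter_subset _ _)), rfl⟩
    obtain ⟨J₀, h3, h4⟩ := (Ultrafilter.finite_biUnion_mem_iff (finite_toSet _)).1 h2
    exact ⟨J₀, by simpa using h3, h4⟩
  obtain ⟨g, hg, hlim, -⟩ := h.lim 𝒰 h𝒰' F hF
  have h3 : ∀ Λ : ℝ, ∀ᶠ m in (𝒰 : Filter ℕ), ∀ c ∈ J₀, c ∈ b Λ (F m) := by
    intro Λ
    obtain ⟨k, hk⟩ := exists_nat_ge (Λ - Λ₀)
    filter_upwards [hJ₀', h𝒰' (eventually_ge_atTop k)] with m h4 h5 c hc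
    rw [← h4, hJ, mem_filter, add_zero] at hc
    have h6 : (k : ℝ) ≤ m := by exact_mod_cast h5
    exact h.mono (F m) (hF m) Λ (Λ₀ + m) (by linarith) hc.2
  have h4 := hlim n J₀ (by simpa using hJ₀) h3 (ε / 2) (by linarith)
  obtain ⟨m, h5, h6⟩ := (h4.and hJ₀').exists
  have h7 := hlt m
  rw [hcnt, h6] at h7
  have h8 := hx g hg
  linarith

/-- double counting: energies -/
theorem sum_box_le {φ : ℤ × ℤ → ℝ} (hφ : ∀ c, 0 ≤ φ c) (N n : ℕ) :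
    ∑ c ∈ box N, ∑ d ∈ box n, φ (d + c) ≤ (2 * n + 1) ^ 2 * ∑ x ∈ box (N + n), φ x := by
  rw [sum_comm]
  have h1 : ∀ d ∈ box n, ∑ c ∈ box N, φ (d + c) ≤ ∑ x ∈ box (N + n), φ x := by
    intro d hd
    rw [← sum_image (f := φ) (s := box N) (g := fun c => d + c) (fun _ _ _ _ h => add_left_cancel h)]
    refine sum_le_sum_of_subset_of_nonneg ?_ fun x _ _ => hφ x
    intro x hx
    obtain ⟨c, hc, rfl⟩ := mem_image.1 hx
    rw [add_comm d c]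
    exact add_mem_box hc hd
  refine (sum_le_sum h1).trans ?_
  rw [sum_const, nsmul_eq_mul, card_box]

/-- double counting: bad cells -/
theorem le_sum_cnt (B : Set (ℤ × ℤ)) (M n : ℕ) : (2 * (n : ℝ) + 1) ^ 2 * cnt B 0 M ≤ ∑ c ∈ box (M + n), (cnt B c n : ℝ) := by
  classical
  have h1 : ∀ c, (cnt B c n : ℝ) = ∑ d ∈ box n, if d + c ∈ B then (1 : ℝ) else 0 := by
    intro c
    rw [cnt_eq, card_filter]
    push_cast
    rfl
  have h2 : ∀ d ∈ box n, (cnt B 0 M : ℝ) ≤ ∑ c ∈ box (M + n), if d + c ∈ B then (1 : ℝ) else 0 := by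
    intro d hd
    rw [cnt_eq, ← sum_filter, sum_const, nsmul_eq_mul, mul_one]
    have h3 : ((box M).filter fun c => c + 0 ∈ B).card ≤ ((box (M + n)).filter fun c => d + c ∈ B).card := by
      refine card_le_card_of_injOn (fun c => c - d) ?_ ?_
      · intro c hc
        rw [mem_coe, mem_filter, add_zero] at hc
        rw [mem_coe, mem_filter]
        refine ⟨sub_mem_box hc.1 hd, ?_⟩
        rw [add_sub_cancel]
        exact hc.2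
      · intro c _ c' _ h
        simpa using h
    exact_mod_cast h3
  simp_rw [h1]
  rw [sum_comm]
  calc (2 * (n : ℝ) + 1) ^ 2 * cnt B 0 M = ∑ _d ∈ box n, (cnt B 0 M : ℝ) := by rw [sum_const, nsmul_eq_mul, card_box]
    _ ≤ _ := sum_le_sum h2

/-- the density of the bad cells of a near-minimiser -/
theorem Eng.count (h : Eng S tr e b E q) {x y ε Λ : ℝ} {n M : ℕ} {f : ι} (hf : f ∈ S)
    (hc : ∀ f ∈ S, x * (2 * ((n + 1 : ℕ) : ℝ) + 1) ^ 2 + q * cnt (b Λ f) 0 n ≤ ∑ c ∈ box (n + 1), e f c + ε)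
    (hy : ∑ c ∈ box (M + n + (n + 1)), e f c ≤ y * (2 * ((M + n + (n + 1) : ℕ) : ℝ) + 1) ^ 2) :
    q * ((2 * (n : ℝ) + 1) ^ 2 * cnt (b Λ f) 0 M) ≤
      (2 * ((n + 1 : ℕ) : ℝ) + 1) ^ 2 * (y * (2 * ((M + n + (n + 1) : ℕ) : ℝ) + 1) ^ 2) +
        (ε - x * (2 * ((n + 1 : ℕ) : ℝ) + 1) ^ 2) * (2 * ((M + n : ℕ) : ℝ) + 1) ^ 2 := by
  have h1 := sum_box_le (φ := e f) (h.e_nonneg f hf) (M + n) (n + 1)
  have h2 := le_sum_cnt (b Λ f) M n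
  have h3 : ∀ c ∈ box (M + n), x * (2 * ((n + 1 : ℕ) : ℝ) + 1) ^ 2 + q * cnt (b Λ f) c n ≤ ∑ d ∈ box (n + 1), e f (d + c) + ε := by
    intro c _
    have h4 := hc (tr c f) (h.tr_mem f hf c)
    rw [h.cnt_tr hf] at h4
    simp_rw [h.e_tr f hf] at h4
    exact h4
  have h5 := sum_le_sum h3
  rw [sum_add_distrib, sum_add_distrib, sum_const, sum_const, nsmul_eq_mul, nsmul_eq_mul, card_box, ← mul_sum] at h5
  have h6 := mul_le_mul_of_nonneg_left h2 h.q_pos.le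
  have h7 : (0 : ℝ) ≤ (2 * ((n + 1 : ℕ) : ℝ) + 1) ^ 2 := by positivity
  have h8 := mul_le_mul_of_nonneg_left hy h7
  linarith

private theorem large (k : ℕ) {p : ℝ} (hp : 0 < p) : ∀ᶠ M : ℕ in atTop, (2 * ((M + k : ℕ) : ℝ) + 1) ^ 2 ≤ (1 + p) * (2 * (M : ℝ) + 1) ^ 2 := by
  obtain ⟨M₀, hM₀⟩ := exists_nat_ge ((4 * (k : ℝ) + 4 * k ^ 2) / p)
  filter_upwards [eventually_ge_atTop M₀] with M hM
  have h1 : (M₀ : ℝ) ≤ M := by exact_mod_cast hM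
  have h2 : (4 * (k : ℝ) + 4 * k ^ 2) ≤ p * M := by
    rw [div_le_iff₀ hp] at hM₀
    nlinarith
  have hk : (0 : ℝ) ≤ k := Nat.cast_nonneg _
  have hM' : (0 : ℝ) ≤ M := Nat.cast_nonneg _
  push_cast
  have h3 : (4 * (k : ℝ) + 4 * k ^ 2) * (2 * M + 1) ≤ p * M * (2 * M + 1) := mul_le_mul_of_nonneg_right h2 (by positivity)
  nlinarith [mul_nonneg hp.le hM', mul_nonneg (mul_nonneg hk hk) hM', mul_nonneg hk hM']

/-- near-minimisers have few bad cells -/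
theorem Eng.density (h : Eng S tr e b E q) (hne : S.Nonempty) {p : ℝ} (hp : 0 < p) (Λ₀ : ℝ) :
    ∃ Λ : ℝ, Λ₀ ≤ Λ ∧ ∀ᶠ M : ℕ in atTop, ∃ f ∈ S, (cnt (b Λ f) 0 M : ℝ) ≤ p * (2 * M + 1) ^ 2 := by
  obtain ⟨f₀, hf₀⟩ := hne
  have hq := h.q_pos
  set D : Set ℝ := {x | ∃ n : ℕ, ∀ f ∈ S, x * (2 * ((n + 1 : ℕ) : ℝ) + 1) ^ 2 ≤ ∑ c ∈ box (n + 1), e f c} with hD
  have hE : 0 ≤ E := (h.e_nonneg f₀ hf₀ 0).trans (h.e_le f₀ hf₀ 0)
  have hbd : ∀ x ∈ D, x ≤ E := by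
    rintro x ⟨n, hn⟩
    have h1 := hn f₀ hf₀
    have h2 : ∑ c ∈ box (n + 1), e f₀ c ≤ ∑ _c ∈ box (n + 1), E := sum_le_sum fun c _ => h.e_le f₀ hf₀ c
    rw [sum_const, nsmul_eq_mul, card_box] at h2
    have h3 : (0 : ℝ) < (2 * ((n + 1 : ℕ) : ℝ) + 1) ^ 2 := by positivity
    have h4 : x * (2 * ((n + 1 : ℕ) : ℝ) + 1) ^ 2 ≤ E * (2 * ((n + 1 : ℕ) : ℝ) + 1) ^ 2 := by linarith
    exact le_of_mul_le_mul_right h4 h3
  have h0D : (0 : ℝ) ∈ D := ⟨0, fun f hf => by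
    rw [zero_mul]
    exact sum_nonneg fun c _ => h.e_nonneg f hf c⟩
  have hbdd : BddAbove D := ⟨E, hbd⟩
  set X := sSup D with hX
  have hX0 : 0 ≤ X := le_csSup hbdd h0D
  have hXE : X ≤ E := csSup_le ⟨0, h0D⟩ hbd
  set p' : ℝ := min 1 (p * q / (9 * (E + 5))) with hp'
  have hp'0 : 0 < p' := lt_min one_pos (by positivity)
  have hp'1 : p' ≤ 1 := min_le_left _ _
  have hp'2 : 9 * (E + 5) * p' ≤ p * q := by
    have h1 : p' ≤ p * q / (9 * (E + 5)) := min_le_right _ _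
    rw [le_div_iff₀ (by positivity)] at h1
    linarith
  obtain ⟨x, ⟨n, hn⟩, hxX, hx0⟩ : ∃ x ∈ D, X - p' < x ∧ 0 ≤ x := by
    obtain ⟨x, hx, hx'⟩ := exists_lt_of_lt_csSup ⟨0, h0D⟩ (show X - p' < sSup D by linarith)
    rcases le_total 0 x with h1 | h1
    · exact ⟨x, hx, hx', h1⟩
    · exact ⟨0, h0D, by linarith, le_rfl⟩
  obtain ⟨Λ, hΛ, hcost⟩ := h.cost Λ₀ n hn hp'0
  refine ⟨Λ, hΛ, ?_⟩
  filter_upwards [large (n + (n + 1)) hp'0] with M hM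
  have h1 : X + p' ∉ D := fun hmem => by
    have := le_csSup hbdd hmem
    linarith
  rw [hD, Set.mem_setOf_eq] at h1
  push Not at h1
  obtain ⟨f, hf, hlt⟩ := h1 (M + n + n)
  refine ⟨f, hf, ?_⟩
  have h2 := h.count (M := M) hf hcost (y := X + p') hlt.le
  set A : ℝ := (2 * ((n + 1 : ℕ) : ℝ) + 1) ^ 2 with hA
  set Bm : ℝ := (2 * (M : ℝ) + 1) ^ 2 with hBm
  have hn0 : (0 : ℝ) ≤ n := Nat.cast_nonneg _
  have hM0 : (0 : ℝ) ≤ M := Nat.cast_nonneg _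
  have hA1 : 1 ≤ A := by
    rw [hA]
    push_cast
    nlinarith
  have hA9 : A ≤ 9 * (2 * (n : ℝ) + 1) ^ 2 := by
    rw [hA]
    push_cast
    nlinarith
  have hB0 : 0 < Bm := by rw [hBm]; positivity
  have h3 : (2 * ((M + n + (n + 1) : ℕ) : ℝ) + 1) ^ 2 ≤ (1 + p') * Bm := by
    have e1 : M + n + (n + 1) = M + (n + (n + 1)) := by ring
    rw [e1]
    exact hM
  have h4 : (2 * ((M + n : ℕ) : ℝ) + 1) ^ 2 ≤ (1 + p') * Bm := by
    refine le_trans ?_ h3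
    refine pow_le_pow_left₀ (by positivity) ?_ 2
    push_cast
    linarith
  have h5 : Bm ≤ (2 * ((M + n : ℕ) : ℝ) + 1) ^ 2 := by
    rw [hBm]
    refine pow_le_pow_left₀ (by positivity) ?_ 2
    push_cast
    linarith
  set P := (2 * ((M + n + (n + 1) : ℕ) : ℝ) + 1) ^ 2 with hP
  set Q := (2 * ((M + n : ℕ) : ℝ) + 1) ^ 2 with hQ
  have h6 : A * ((X + p') * P) ≤ A * ((X + p') * ((1 + p') * Bm)) :=
    mul_le_mul_of_nonneg_left (mul_le_mul_of_nonneg_left h3 (by linarith)) (by linarith)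
  have h7 : p' * Q ≤ p' * ((1 + p') * Bm) := mul_le_mul_of_nonneg_left h4 hp'0.le
  have h8 : x * A * Bm ≤ x * A * Q := mul_le_mul_of_nonneg_left h5 (mul_nonneg hx0 (by linarith))
  have h9 : (X - p') * A * Bm ≤ x * A * Bm := by
    refine mul_le_mul_of_nonneg_right (mul_le_mul_of_nonneg_right hxX.le (by linarith)) hB0.le
  have h10 : q * ((2 * (n : ℝ) + 1) ^ 2 * cnt (b Λ f) 0 M) ≤ A * Bm * (p' * (E + 5)) := by
    have e1 : A * ((X + p') * ((1 + p') * Bm)) + p' * ((1 + p') * Bm) - (X - p') * A * Bm =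
        A * Bm * (X * p' + 2 * p' + p' ^ 2) + Bm * (p' * (1 + p')) := by ring
    have e2 : X * p' + 2 * p' + p' ^ 2 ≤ p' * (E + 3) := by nlinarith
    have e3 : p' * (1 + p') ≤ 2 * p' := by nlinarith
    have e4 : A * Bm * (X * p' + 2 * p' + p' ^ 2) ≤ A * Bm * (p' * (E + 3)) := mul_le_mul_of_nonneg_left e2 (by positivity)
    have e5 : Bm * (p' * (1 + p')) ≤ A * Bm * (2 * p') := by
      have e6 : Bm * (p' * (1 + p')) ≤ Bm * (2 * p') := mul_le_mul_of_nonneg_left e3 hB0.le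
      have e7 : Bm * (2 * p') ≤ A * (Bm * (2 * p')) := le_mul_of_one_le_left (by positivity) hA1
      linarith
    linarith
  have h11 : (0 : ℝ) < (2 * (n : ℝ) + 1) ^ 2 := by positivity
  have h12 : A * Bm * (p' * (E + 5)) ≤ (2 * (n : ℝ) + 1) ^ 2 * (q * (p * Bm)) := by
    have e1 : A * (Bm * (p' * (E + 5))) ≤ 9 * (2 * (n : ℝ) + 1) ^ 2 * (Bm * (p' * (E + 5))) :=
      mul_le_mul_of_nonneg_right hA9 (by positivity)
    have e2 : (2 * (n : ℝ) + 1) ^ 2 * Bm * (9 * (E + 5) * p') ≤ (2 * (n : ℝ) + 1) ^ 2 * Bm * (p * q) :=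
      mul_le_mul_of_nonneg_left hp'2 (by positivity)
    linarith
  have h13 : (2 * (n : ℝ) + 1) ^ 2 * (q * cnt (b Λ f) 0 M) ≤ (2 * (n : ℝ) + 1) ^ 2 * (q * (p * Bm)) := by
    linarith
  exact le_of_mul_le_mul_left (le_of_mul_le_mul_left h13 h11) hq

/-- an element whose bad cells have small density at all scales -/
theorem Eng.exists_typical (h : Eng S tr e b E q) (hne : S.Nonempty) {p : ℝ} (hp : 0 < p) (Λ₀ : ℝ) :
    ∃ Λ : ℝ, Λ₀ ≤ Λ ∧ ∃ f ∈ S, ∀ n : ℕ, (cnt (b Λ f) 0 n : ℝ) ≤ p * (2 * n + 1) ^ 2 := by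
  classical
  set p₂ : ℝ := p / 81 with hp₂
  have hp₂0 : 0 < p₂ := by positivity
  obtain ⟨Λ, hΛ, hden⟩ := h.density hne (show 0 < p₂ / 17 by positivity) (max Λ₀ 0)
  obtain ⟨M₀, hM₀⟩ := eventually_atTop.1 hden
  refine ⟨2 * Λ, ?_, ?_⟩
  · have h1 := (le_max_left Λ₀ 0).trans hΛ
    have h2 := (le_max_right Λ₀ 0).trans hΛ
    linarith
  have h1 : ∀ k : ℕ, ∃ f ∈ S, ∀ m : ℕ, m ≤ M₀ + k → (cnt (b Λ f) 0 m : ℝ) ≤ p₂ * (2 * m + 1) ^ 2 := by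
    intro k
    obtain ⟨f, hf, hc⟩ := hM₀ (2 * (M₀ + k)) (by omega)
    have hk : (0 : ℝ) ≤ ((M₀ + k : ℕ) : ℝ) := Nat.cast_nonneg _
    obtain ⟨a, -, ha⟩ := exists_good_centre (b Λ f) hp₂0.le (M₀ + k) (by
      push_cast at hc hk ⊢
      have e1 : (2 * (2 * ((M₀ : ℝ) + k)) + 1) ^ 2 ≤ 4 * (2 * ((M₀ : ℝ) + k) + 1) ^ 2 := by nlinarith
      have e2 : p₂ / 17 * (2 * (2 * ((M₀ : ℝ) + k)) + 1) ^ 2 ≤ p₂ / 17 * (4 * (2 * ((M₀ : ℝ) + k) + 1) ^ 2) :=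
        mul_le_mul_of_nonneg_left e1 (by positivity)
      have e3 : 0 < p₂ * (2 * ((M₀ : ℝ) + k) + 1) ^ 2 := by positivity
      linarith)
    refine ⟨tr a f, h.tr_mem f hf a, fun m hm => ?_⟩
    rw [h.cnt_tr hf]
    exact (ha m hm).le
  choose F hF hFc using h1
  set 𝒰 : Ultrafilter ℕ := hyperfilter ℕ with h𝒰
  have h𝒰' : (𝒰 : Filter ℕ) ≤ atTop := by
    rw [← Nat.cofinite_eq_atTop]
    exact hyperfilter_le_cofinite
  obtain ⟨g, hg, -, hbad⟩ := h.lim 𝒰 h𝒰' F hF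
  refine ⟨g, hg, fun m => ?_⟩
  have h2 : ∀ c : ℤ × ℤ, ∃ d ∈ box 1, c ∈ b (2 * Λ) g → ∀ᶠ k in (𝒰 : Filter ℕ), c + d ∈ b Λ (F k) := by
    intro c
    by_cases hc : c ∈ b (2 * Λ) g
    · obtain ⟨d, hd, hd'⟩ := hbad Λ c hc
      exact ⟨d, hd, fun _ => hd'⟩
    · exact ⟨0, by simp [mem_box], fun h0 => absurd h0 hc⟩
  choose d hd hd' using h2
  have h3 : ∀ᶠ k in (𝒰 : Filter ℕ), ∀ c ∈ (box m).filter (fun c => c + 0 ∈ b (2 * Λ) g), c + d c ∈ b Λ (F k) := by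
    rw [Filter.eventually_all_finset]
    intro c hc
    rw [mem_filter, add_zero] at hc
    exact hd' c hc.2
  obtain ⟨k, h4, h5⟩ := (h3.and (h𝒰' (eventually_ge_atTop (m + 1)))).exists
  have h6 : cnt (b (2 * Λ) g) 0 m ≤ 9 * cnt (b Λ (F k)) 0 (m + 1) := by
    rw [cnt_eq, cnt_eq]
    refine card_le_mul_card_image_of_maps_to (f := fun c => c + d c) (fun c hc => ?_) 9 fun y _ => ?_
    · have h7 := h4 c hc
      rw [mem_filter] at hc ⊢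
      exact ⟨add_mem_box hc.1 (hd c), by simpa using h7⟩
    · have h7 : (box 1).card = 9 := by
        have := card_box 1
        norm_num at this
        exact_mod_cast this
      rw [← h7]
      refine card_le_card_of_injOn (fun c => y - c) ?_ ?_
      · intro c hc
        rw [mem_coe, mem_filter] at hc
        have e1 : y - c = d c := by
          rw [← hc.2]
          exact add_sub_cancel_left c (d c)
        change y - c ∈ (↑(box 1) : Set (ℤ × ℤ))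
        rw [e1]
        exact hd c
      · intro c _ c' _ h
        simpa using h
  have h7 := hFc k (m + 1) (by omega)
  have h8 : (cnt (b (2 * Λ) g) 0 m : ℝ) ≤ 9 * cnt (b Λ (F k)) 0 (m + 1) := by exact_mod_cast h6
  have hm0 : (0 : ℝ) ≤ m := Nat.cast_nonneg _
  have h9 : (2 * ((m + 1 : ℕ) : ℝ) + 1) ^ 2 ≤ 9 * (2 * (m : ℝ) + 1) ^ 2 := by
    push_cast
    nlinarith
  have h10 := mul_le_mul_of_nonneg_left h9 hp₂0.le
  have h11 : p₂ * 81 = p := by rw [hp₂]; ring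
  rw [← h11]
  linarith

/-- MAIN: an element whose bad cells have small density at all scales, around `0` and around most of the cells of every box -/
theorem Eng.exists_centres (h : Eng S tr e b E q) (hne : S.Nonempty) {p : ℝ} (hp : 0 < p) (Λ₀ : ℝ) :
    ∃ Λ : ℝ, Λ₀ ≤ Λ ∧ ∃ f ∈ S, (∀ n : ℕ, (cnt (b Λ f) 0 n : ℝ) ≤ p * (2 * n + 1) ^ 2) ∧
      ∀ L : ℕ, ∃ TT : Finset (ℤ × ℤ), TT ⊆ box L ∧ 3 * (2 * (L : ℝ) + 1) ^ 2 ≤ 4 * TT.card ∧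
        ∀ a ∈ TT, ∀ n : ℕ, (cnt (b Λ f) a n : ℝ) < p * (2 * n + 1) ^ 2 := by
  classical
  obtain ⟨Λ, hΛ, f, hf, hc⟩ := h.exists_typical hne (show 0 < p / 64 by positivity) Λ₀
  refine ⟨Λ, hΛ, f, hf, fun n => (hc n).trans ?_, fun L => ?_⟩
  · exact mul_le_mul_of_nonneg_right (by linarith) (by positivity)
  set A : Finset (ℤ × ℤ) := (box L).filter fun a => ∃ m : ℕ, p * (2 * (m : ℝ) + 1) ^ 2 ≤ cnt (b Λ f) a m with hA
  refine ⟨(box L).filter fun a => ¬ ∃ m : ℕ, p * (2 * (m : ℝ) + 1) ^ 2 ≤ cnt (b Λ f) a m, filter_subset _ _, ?_, fun a ha n => ?_⟩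
  · have h1 := few_bad_all (b Λ f) (p := p / 64) (p' := p) (by positivity) (by linarith) hc L A (filter_subset _ _) fun a ha => (mem_filter.1 ha).2
    have h2 : A.card + ((box L).filter fun a => ¬ ∃ m : ℕ, p * (2 * (m : ℝ) + 1) ^ 2 ≤ cnt (b Λ f) a m).card = (box L).card :=
      card_filter_add_card_filter_not _
    have h3 : (A.card : ℝ) + ((box L).filter fun a => ¬ ∃ m : ℕ, p * (2 * (m : ℝ) + 1) ^ 2 ≤ cnt (b Λ f) a m).card = (2 * (L : ℝ) + 1) ^ 2 := by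
      rw [← card_box]
      exact_mod_cast h2
    have h4 : p * A.card ≤ p * ((2 * (L : ℝ) + 1) ^ 2 / 4) := by linarith
    have h5 := le_of_mul_le_mul_left h4 hp
    linarith
  · have h1 := (mem_filter.1 ha).2
    push Not at h1
    exact h1 n

end Pool.Agent.H13.EM
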