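import Mathlib

/-!
# Energy minimality: boxes in `ℤ × ℤ` and the maximal inequality of Vitali
-/

set_option autoImplicit false

open Finset

namespace Pool.Agent.H13.EM

/-- the box of radius `n` with centre `0` -/
noncomputable def box (n : ℕ) : Finset (ℤ × ℤ) := Icc (-(n : ℤ)) n ×ˢ Icc (-(n : ℤ)) n

theorem mem_box {n : ℕ} {c : ℤ × ℤ} : c ∈ box n ↔ |c.1| ≤ n ∧ |c.2| ≤ n := by
  simp only [box, mem_product, mem_Icc, abs_le]

theorem card_box (n : ℕ) : ((box n).card : ℝ) = (2 * n + 1) ^ 2 := by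
  have h : (Icc (-(n : ℤ)) n).card = 2 * n + 1 := by
    rw [Int.card_Icc]
    omega
  rw [box, card_product, h]
  push_cast
  ring

/-- the bad cells of the box of radius `n` with centre `a` -/
noncomputable def cnt (B : Set (ℤ × ℤ)) (a : ℤ × ℤ) (n : ℕ) : ℕ := by
  classical exact ((box n).filter fun c => c + a ∈ B).card

theorem cnt_eq (B : Set (ℤ × ℤ)) [DecidablePred (· ∈ B)] (a : ℤ × ℤ) (n : ℕ) :
    cnt B a n = ((box n).filter fun c => c + a ∈ B).card := by
  unfold cnt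
  congr

theorem box_mono {m n : ℕ} (h : m ≤ n) : box m ⊆ box n := by
  intro c hc
  rw [mem_box] at hc ⊢
  have : (m : ℤ) ≤ n := by exact_mod_cast h
  exact ⟨hc.1.trans this, hc.2.trans this⟩

theorem add_mem_box {m n : ℕ} {c d : ℤ × ℤ} (hc : c ∈ box m) (hd : d ∈ box n) : c + d ∈ box (m + n) := by
  rw [mem_box] at hc hd ⊢
  push_cast
  exact ⟨(abs_add_le _ _).trans (add_le_add hc.1 hd.1), (abs_add_le _ _).trans (add_le_add hc.2 hd.2)⟩

theorem neg_mem_box {n : ℕ} {c : ℤ × ℤ} (hc : c ∈ box n) : -c ∈ box n := by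
  rw [mem_box] at hc ⊢
  simpa using hc

theorem sub_mem_box {m n : ℕ} {c d : ℤ × ℤ} (hc : c ∈ box m) (hd : d ∈ box n) : c - d ∈ box (m + n) := by
  rw [sub_eq_add_neg]
  exact add_mem_box hc (neg_mem_box hd)

/-- the maximal inequality -/
theorem vitali {p : ℝ} (hp : 0 ≤ p) (D : Finset (ℤ × ℤ)) (r : ℤ × ℤ → ℕ) :
    ∀ A : Finset (ℤ × ℤ), (∀ a ∈ A, p * (2 * r a + 1) ^ 2 ≤ (D.filter fun c => c - a ∈ box (r a)).card) →
      p * A.card ≤ 4 * (D.filter fun c => ∃ a ∈ A, c - a ∈ box (r a)).card := by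
  classical
  intro A
  induction hn : A.card using Nat.strong_induction_on generalizing A with
  | _ n ih =>
    intro hA
    rcases A.eq_empty_or_nonempty with rfl | hne
    · simp at hn
      subst hn
      simp
    obtain ⟨a, ha, hmax⟩ := A.exists_max_image r hne
    set A₁ := A.filter fun c => ∃ x, x - a ∈ box (r a) ∧ x - c ∈ box (r c) with hA₁
    set A₂ := A.filter fun c => ¬ ∃ x, x - a ∈ box (r a) ∧ x - c ∈ box (r c) with hA₂
    have hcard : A₁.card + A₂.card = A.card := by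
      rw [hA₁, hA₂]
      exact card_filter_add_card_filter_not _
    have ha1 : a ∈ A₁ := by
      rw [hA₁, mem_filter]
      refine ⟨ha, a, ?_, ?_⟩ <;> simp [mem_box]
    have h1 : A₁.card ≤ (box (2 * r a)).card := by
      refine card_le_card_of_injOn (fun c => c - a) ?_ ?_
      · intro c hc
        rw [hA₁, mem_coe, mem_filter] at hc
        obtain ⟨hc, x, hx1, hx2⟩ := hc
        have h := sub_mem_box hx1 hx2
        have h' : c - a ∈ box (r a + r c) := by
          have e : x - a - (x - c) = c - a := by abel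
          rwa [e] at h
        exact box_mono (by have := hmax c hc; omega) h'
      · intro c _ d _ h
        simpa using h
    have h1' : (A₁.card : ℝ) ≤ 4 * (2 * r a + 1) ^ 2 := by
      have e := card_box (2 * r a)
      have : (A₁.card : ℝ) ≤ (box (2 * r a)).card := by exact_mod_cast h1
      rw [e] at this
      push_cast at this
      have h0 : (0 : ℝ) ≤ r a := Nat.cast_nonneg _
      nlinarith
    have h2 : p * A₂.card ≤ 4 * (D.filter fun c => ∃ a ∈ A₂, c - a ∈ box (r a)).card := by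
      refine ih A₂.card ?_ A₂ rfl ?_
      · have : 0 < A₁.card := card_pos.2 ⟨a, ha1⟩
        omega
      · intro c hc
        exact hA c (mem_of_mem_filter c hc)
    have hdis : Disjoint (D.filter fun c => c - a ∈ box (r a)) (D.filter fun c => ∃ a ∈ A₂, c - a ∈ box (r a)) := by
      rw [disjoint_left]
      intro x hx1 hx2
      rw [mem_filter] at hx1 hx2
      obtain ⟨_, c, hc, hx2⟩ := hx2
      rw [hA₂, mem_filter] at hc
      exact hc.2 ⟨x, hx1.2, hx2⟩
    have hsub : (D.filter fun c => c - a ∈ box (r a)) ∪ (D.filter fun c => ∃ a ∈ A₂, c - a ∈ box (r a)) ⊆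
        D.filter fun c => ∃ a ∈ A, c - a ∈ box (r a) := by
      intro x hx
      rw [mem_union, mem_filter, mem_filter] at hx
      rw [mem_filter]
      rcases hx with hx | ⟨hx, c, hc, hx'⟩
      · exact ⟨hx.1, a, ha, hx.2⟩
      · exact ⟨hx, c, mem_of_mem_filter c hc, hx'⟩
    have h3 := card_le_card hsub
    rw [card_union_of_disjoint hdis] at h3
    have h3' : ((D.filter fun c => c - a ∈ box (r a)).card : ℝ) + (D.filter fun c => ∃ a ∈ A₂, c - a ∈ box (r a)).card ≤
        (D.filter fun c => ∃ a ∈ A, c - a ∈ box (r a)).card := by exact_mod_cast h3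
    have h4 := hA a ha
    have h5 : (A₁.card : ℝ) + A₂.card = A.card := by exact_mod_cast hcard
    have h6 : p * A₁.card ≤ 4 * (p * (2 * r a + 1) ^ 2) := by nlinarith
    have h7 : p * (n : ℝ) = p * A₁.card + p * A₂.card := by
      rw [← hn, ← h5]; ring
    rw [h7]
    linarith

/-- few centres are bad -/
theorem few_bad (B : Set (ℤ × ℤ)) {p : ℝ} (hp : 0 ≤ p) (M : ℕ) (A : Finset (ℤ × ℤ)) (hA : A ⊆ box M)
    (h : ∀ a ∈ A, ∃ m : ℕ, m ≤ M ∧ p * (2 * m + 1) ^ 2 ≤ cnt B a m) : p * A.card ≤ 4 * cnt B 0 (2 * M) := by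
  classical
  have h' : ∀ a, ∃ m : ℕ, a ∈ A → m ≤ M ∧ p * (2 * m + 1) ^ 2 ≤ cnt B a m := by
    intro a
    by_cases ha : a ∈ A
    · obtain ⟨m, hm⟩ := h a ha
      exact ⟨m, fun _ => hm⟩
    · exact ⟨0, fun h => absurd h ha⟩
  choose r hr using h'
  have hcnt : ∀ a ∈ A, cnt B a (r a) ≤ (((box (2 * M)).filter (· ∈ B)).filter fun c => c - a ∈ box (r a)).card := by
    intro a ha
    rw [cnt_eq]
    refine card_le_card_of_injOn (fun c => c + a) ?_ ?_
    · intro c hc
      rw [mem_coe, mem_filter] at hc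
      have h1 : c + a ∈ box (2 * M) := box_mono (by have := (hr a ha).1; omega) (add_mem_box hc.1 (hA ha))
      simp [h1, hc.1, hc.2]
    · intro c _ d _ h
      simpa using h
  have h1 := vitali hp ((box (2 * M)).filter (· ∈ B)) r A (fun a ha => by
    refine (hr a ha).2.trans ?_
    exact_mod_cast hcnt a ha)
  refine h1.trans ?_
  have h2 : (((box (2 * M)).filter (· ∈ B)).filter fun c => ∃ a ∈ A, c - a ∈ box (r a)).card ≤ cnt B 0 (2 * M) := by
    rw [cnt_eq]
    refine card_le_card ?_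
    intro c hc
    rw [mem_filter, mem_filter] at hc
    rw [mem_filter]
    exact ⟨hc.1.1, by simpa using hc.1.2⟩
  have h3 : ((((box (2 * M)).filter (· ∈ B)).filter fun c => ∃ a ∈ A, c - a ∈ box (r a)).card : ℝ) ≤ cnt B 0 (2 * M) := by
    exact_mod_cast h2
  linarith

/-- a good centre -/
theorem exists_good_centre (B : Set (ℤ × ℤ)) {p : ℝ} (hp : 0 ≤ p) (M : ℕ) (h : 4 * (cnt B 0 (2 * M) : ℝ) < p * (2 * M + 1) ^ 2) :
    ∃ a ∈ box M, ∀ m : ℕ, m ≤ M → (cnt B a m : ℝ) < p * (2 * m + 1) ^ 2 := by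
  by_contra hcon
  push Not at hcon
  have h1 := few_bad B hp M (box M) subset_rfl hcon
  rw [card_box] at h1
  linarith

/-- most centres are good -/
theorem few_bad_all (B : Set (ℤ × ℤ)) {p p' : ℝ} (hp : 0 ≤ p) (hpp : 4 * p < p') (hB : ∀ m : ℕ, (cnt B 0 m : ℝ) ≤ p * (2 * m + 1) ^ 2)
    (M : ℕ) (A : Finset (ℤ × ℤ)) (hA : A ⊆ box M) (h : ∀ a ∈ A, ∃ m : ℕ, p' * (2 * m + 1) ^ 2 ≤ cnt B a m) :
    p' * A.card ≤ 16 * p * (2 * M + 1) ^ 2 := by
  classical
  have h1 : p' * A.card ≤ 4 * cnt B 0 (2 * M) := by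
    refine few_bad B (by linarith) M A hA fun a ha => ?_
    obtain ⟨m, hm⟩ := h a ha
    refine ⟨m, ?_, hm⟩
    by_contra hlt
    push Not at hlt
    have h2 : cnt B a m ≤ cnt B 0 (2 * m) := by
      rw [cnt_eq, cnt_eq]
      refine card_le_card_of_injOn (fun c => c + a) ?_ ?_
      · intro c hc
        rw [mem_coe, mem_filter] at hc
        have h1 : c + a ∈ box (2 * m) := box_mono (by omega) (add_mem_box hc.1 (hA ha))
        simp [h1, hc.2]
      · intro c _ d _ h
        simpa using h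
    have h3 : (cnt B a m : ℝ) ≤ cnt B 0 (2 * m) := by exact_mod_cast h2
    have h4 := hB (2 * m)
    push_cast at h4
    have h5 : (0 : ℝ) ≤ m := Nat.cast_nonneg _
    have h6 : p * (2 * (2 * (m : ℝ)) + 1) ^ 2 ≤ 4 * p * (2 * m + 1) ^ 2 := by
      nlinarith [mul_nonneg hp h5, mul_nonneg (mul_nonneg hp h5) h5]
    have h7 : (4 * p) * (2 * (m : ℝ) + 1) ^ 2 < p' * (2 * m + 1) ^ 2 := by
      refine mul_lt_mul_of_pos_right hpp (by positivity)
    linarith
  have h4 := hB (2 * M)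
  push_cast at h4
  have h5 : (0 : ℝ) ≤ M := Nat.cast_nonneg _
  have h6 : p * (2 * (2 * (M : ℝ)) + 1) ^ 2 ≤ 4 * p * (2 * M + 1) ^ 2 := by
    nlinarith [mul_nonneg hp h5, mul_nonneg (mul_nonneg hp h5) h5]
  linarith

end Pool.Agent.H13.EM
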